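import Pool.Agent.H32.JT

set_option autoImplicit false

namespace Pool.Agent.Results.MP_f8aafe_co.DetCounter

open Pool.Agent.H32.JT

/-- Monomial positivity fails already for the determinant (the immanant of the basis element 1):
for some `k, n ≥ 1` and skew shapes `lam i / mu i` with exactly `n` nonzero rows in each `lam i`,
the determinant of the Hadamard product of the dual Jacobi-Trudi matrices has a negative
monomial coefficient. -/
theorem result : ∃ (k n : ℕ) (lam mu : Fin k → Fin n → ℕ), 1 ≤ k ∧ 1 ≤ n ∧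
    (∀ i, Antitone (lam i)) ∧ (∀ i, Antitone (mu i)) ∧ (∀ i a, mu i a ≤ lam i a) ∧
    (∀ i a, 0 < lam i a) ∧
    ∃ d : Fin k × ℕ →₀ ℕ, MvPowerSeries.coeff d
      (Matrix.det (Matrix.of fun a b : Fin n => ∏ i : Fin k, JT i (lam i) (mu i) a b)) < 0 := by
  refine ⟨2, 3, lam, mu, by norm_num, by norm_num, by unfold Antitone; decide,
    by unfold Antitone; decide, by decide, by decide, ?_⟩
  obtain ⟨d, -, hd⟩ := main
  refine ⟨d, ?_⟩
  simp only [Fin.prod_univ_two]
  rwa [F_eq]

end Pool.Agent.Results.MP_f8aafe_co.DetCounter
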